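import Pool.Agent.KDT.StmtsZ

/-! Squad KDT, row STD: the stabiliser is large. -/

set_option autoImplicit false

open Polynomial

namespace Pool.Agent.KDT.H76

open Pool.Agent.KDT.Z Pool.Agent.SZT

theorem on_emb {k U : Type} [Field k] [Field U] [Algebra k U] {f : k[X]} {g : U[X]}
    (hg : g = f.map (algebraMap k U)) {t : Fin 4 → k} (h : On f t) : On g (emb U t) := by
  obtain ⟨R, hR⟩ := h
  refine ⟨R.map (algebraMap k U), ?_⟩
  have h1 := congrArg (Polynomial.map (algebraMap k U)) hR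
  rw [Polynomial.map_mul, Polynomial.map_sub, Polynomial.map_pow] at h1
  have hA : pA (emb U t) = (pA t).map (algebraMap k U) := by
    unfold pA emb
    simp
  have hB : pB (emb U t) = (pB t).map (algebraMap k U) := by
    unfold pB emb
    simp
  rw [hA, hB, hg, h1]

theorem sqf_map {k U : Type} [Field k] [Field U] [Algebra k U] [CharZero k] {f : k[X]}
    (h : Squarefree f) : Squarefree (f.map (algebraMap k U)) := by
  have h1 : f.Separable := PerfectField.separable_iff_squarefree.2 h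
  exact (h1.map).squarefree

/-- **STD** -/
theorem std (ext : ExtStatement) (lff : LffStatement) (_sbg : SbgStatement) : StdStatement := by
  classical
  intro k U _ _ _ f g henv J _ th cl act Jk hJ q hq Γ hΓ hΓk Φs T hΦ hT
  have hchk : CharZero k := henv.ch
  have hac : IsAlgClosed U := henv.oc
  have hchU : CharZero U := charZero_of_injective_algebraMap (algebraMap k U).injective
  have hsq : Squarefree g := by
    rw [henv.gm]; exact sqf_map henv.sf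
  rcases T.eq_empty_or_nonempty with hTe | ⟨τ0, hτ0⟩
  · rw [hTe, Finset.card_empty]; exact Nat.zero_le _
  choose! t ht using fun τ hτ => (hT τ hτ).2
  obtain ⟨Q, hQ⟩ : ∃ Q : J → Fin 4 → U, ∀ τ, Q τ = cmp (g.coeff 4) q (emb U (t τ)) :=
    ⟨fun τ => cmp (g.coeff 4) q (emb U (t τ)), fun τ => rfl⟩
  have hcomp : ∀ τ ∈ T, On g (Q τ) ∧ cl q + τ = cl (Q τ) := by
    intro τ hτ
    obtain ⟨h1, h2, h3, h4, -, -⟩ := ht τ hτ
    have h5 := hJ.comp q (emb U (t τ)) hq (on_emb henv.gm h1) h3 h4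
    rw [← hQ, ← h2] at h5
    exact h5
  have hgen : ∀ τ ∈ T, ¬ (Q τ 0 ∈ (algebraMap k U).range ∧ Q τ 1 ∈ (algebraMap k U).range) := by
    intro τ hτ
    rw [hQ]; exact (ht τ hτ).2.2.2.2.1
  have hzr : ∀ τ ∈ T, Zr Φs (Q τ 0) (Q τ 1) := by
    intro τ hτ
    rw [hQ]; exact (ht τ hτ).2.2.2.2.2
  have hσ : ∀ τ, ∃ σ : U ≃ₐ[k] U, τ ∈ T → σ (Q τ0 0) = Q τ 0 ∧ σ (Q τ0 1) = Q τ 1 := by
    intro τ
    by_cases hτ : τ ∈ T
    · obtain ⟨σ, h1⟩ := ext k U f g henv Φs (Q τ0 0) (Q τ0 1) (Q τ 0) (Q τ 1) hΦ (hzr τ0 hτ0)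
        (hzr τ hτ) (hgen τ0 hτ0) (hgen τ hτ)
      exact ⟨σ, fun _ => h1⟩
    · exact ⟨1, fun h => absurd h hτ⟩
  choose σ hσ using hσ
  obtain ⟨hfin, hcard⟩ := lff U g hsq (Q τ0 0) (Q τ0 1)
  have hmaps : ∀ τ ∈ T, (fun i => (σ τ).symm (Q τ i)) ∈ hfin.toFinset := by
    intro τ hτ
    rw [Set.Finite.mem_toFinset]
    refine ⟨(hJ.act_cl (σ τ).symm (Q τ) (hcomp τ hτ).1).1, ?_, ?_⟩
    · show (σ τ).symm (Q τ 0) = Q τ0 0
      rw [← (hσ τ hτ).1, AlgEquiv.symm_apply_apply]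
    · show (σ τ).symm (Q τ 1) = Q τ0 1
      rw [← (hσ τ hτ).2, AlgEquiv.symm_apply_apply]
  have hSfin : {h : J | h ∈ Γ ∧ h ∈ Stb cl act q}.Finite :=
    Set.Finite.subset (s := (Γ : Set J)) (Set.toFinite _) fun h hh => hh.1
  have hfib : ∀ b ∈ hfin.toFinset, (T.filter fun τ => (fun i => (σ τ).symm (Q τ i)) = b).card ≤
      {h : J | h ∈ Γ ∧ h ∈ Stb cl act q}.ncard := by
    intro b _
    rcases (T.filter fun τ => (fun i => (σ τ).symm (Q τ i)) = b).eq_empty_or_nonempty with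
      hFe | ⟨τ1, hτ1⟩
    · rw [hFe, Finset.card_empty]; exact Nat.zero_le _
    rw [Finset.mem_filter] at hτ1
    rw [← Set.ncard_coe_finset]
    refine Set.ncard_le_ncard_of_injOn (fun τ => τ - τ1) ?_ ?_ hSfin
    · intro τ hτ
      rw [Finset.mem_coe, Finset.mem_filter] at hτ
      refine ⟨Γ.sub_mem (hT τ hτ.1).1 (hT τ1 hτ1.1).1, σ τ * (σ τ1)⁻¹, ?_⟩
      have e1 : ∀ i, (σ τ * (σ τ1)⁻¹) (Q τ1 i) = Q τ i := by
        intro i
        have h1 : (σ τ1).symm (Q τ1 i) = (σ τ).symm (Q τ i) := by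
          have h2 := congrFun (hτ1.2.trans hτ.2.symm) i
          exact h2
        have h3 : (σ τ * (σ τ1)⁻¹) (Q τ1 i) = σ τ ((σ τ1).symm (Q τ1 i)) := rfl
        rw [h3, h1, AlgEquiv.apply_symm_apply]
      have e2 := (hJ.act_cl (σ τ * (σ τ1)⁻¹) (Q τ1) (hcomp τ1 hτ1.1).1).2
      simp only [e1] at e2
      have e3 : (fun i => Q τ i) = Q τ := rfl
      rw [e3, ← (hcomp τ hτ.1).2, ← (hcomp τ1 hτ1.1).2, map_add,
        hJ.act_k _ τ1 (hΓk (hT τ1 hτ1.1).1)] at e2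
      rw [eq_sub_of_add_eq e2]
      abel
    · intro τ _ τ' _ h
      exact sub_left_injective h
  have h1 := Finset.card_le_mul_card_image_of_maps_to hmaps _ hfib
  have h2 : hfin.toFinset.card ≤ 4 := by
    rw [← Set.ncard_eq_toFinset_card _ hfin]; exact hcard
  calc T.card ≤ {h : J | h ∈ Γ ∧ h ∈ Stb cl act q}.ncard * hfin.toFinset.card := h1
    _ ≤ {h : J | h ∈ Γ ∧ h ∈ Stb cl act q}.ncard * 4 := Nat.mul_le_mul_left _ h2
    _ = 4 * {h : J | h ∈ Γ ∧ h ∈ Stb cl act q}.ncard := Nat.mul_comm _ _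

end Pool.Agent.KDT.H76
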