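import Pool.Agent.KDT.StmtsP

/-! Squad KDT, row SUB: substitution of fractions with a common denominator. -/

set_option autoImplicit false

open Finset

namespace Pool.Agent.KDT.H76

open Pool.Agent.KDT.Z

theorem deg_sum_le {m n : ℕ} {F : Type} [Field F] (Φ : MvPolynomial (Fin m) F)
    (hΦ : Φ.totalDegree ≤ n) (d : Fin m →₀ ℕ) (hd : d ∈ Φ.support) : ∑ i, d i ≤ n := by
  have h1 := MvPolynomial.le_totalDegree hd
  rw [Finsupp.sum_fintype _ _ (fun _ => rfl)] at h1
  exact h1.trans hΦ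

theorem deg_term {m n b : ℕ} {F : Type} [Field F] (a : F) (d : Fin m →₀ ℕ)
    (N : Fin m → MvPolynomial (Fin 4) F) (D : MvPolynomial (Fin 4) F)
    (hN : ∀ i, (N i).totalDegree ≤ b) (hD : D.totalDegree ≤ b) (hd : ∑ i, d i ≤ n) :
    (MvPolynomial.C a * (∏ i, N i ^ d i) * D ^ (n - ∑ i, d i)).totalDegree ≤ b * n := by
  have h1 : (∏ i, N i ^ d i).totalDegree ≤ b * ∑ i, d i := by
    refine (MvPolynomial.totalDegree_finsetProd _ _).trans ?_
    rw [mul_sum]
    refine sum_le_sum fun i _ => ?_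
    refine (MvPolynomial.totalDegree_pow _ _).trans ?_
    rw [mul_comm b]
    exact Nat.mul_le_mul_left _ (hN i)
  have h2 : (D ^ (n - ∑ i, d i)).totalDegree ≤ b * (n - ∑ i, d i) := by
    refine (MvPolynomial.totalDegree_pow _ _).trans ?_
    rw [mul_comm b]
    exact Nat.mul_le_mul_left _ hD
  have h3 : (MvPolynomial.C a * (∏ i, N i ^ d i) : MvPolynomial (Fin 4) F).totalDegree ≤
      b * ∑ i, d i := by
    refine (MvPolynomial.totalDegree_mul _ _).trans ?_
    rw [MvPolynomial.totalDegree_C, zero_add]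
    exact h1
  refine (MvPolynomial.totalDegree_mul _ _).trans ((add_le_add h3 h2).trans ?_)
  rw [← mul_add, Nat.add_sub_cancel' hd]

/-- **SUB** -/
theorem sub : SubStatement := by
  classical
  intro m n b F _ Φ N D hΦ hN hD
  refine ⟨∑ d ∈ Φ.support, MvPolynomial.C (Φ.coeff d) * (∏ i, N i ^ d i) *
    D ^ (n - ∑ i, d i), ?_, ?_⟩
  · refine MvPolynomial.totalDegree_finsetSum_le fun d hd => ?_
    exact deg_term _ d N D hN hD (deg_sum_le Φ hΦ d hd)
  · intro E _ _ q hq
    rw [MvPolynomial.aeval_def (fun i => MvPolynomial.aeval q (N i) / MvPolynomial.aeval q D) Φ,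
      MvPolynomial.eval₂_eq', map_sum, mul_sum]
    refine sum_congr rfl fun d hd => ?_
    have hdn := deg_sum_le Φ hΦ d hd
    have h1 : ∏ i, (MvPolynomial.aeval q (N i) / MvPolynomial.aeval q D) ^ d i =
        (∏ i, (MvPolynomial.aeval q (N i)) ^ d i) / (MvPolynomial.aeval q D) ^ (∑ i, d i) := by
      rw [← prod_pow_eq_pow_sum, ← prod_div_distrib]
      exact prod_congr rfl fun i _ => div_pow _ _ _
    have h2 : (MvPolynomial.aeval q D) ^ n = (MvPolynomial.aeval q D) ^ (n - ∑ i, d i) *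
        (MvPolynomial.aeval q D) ^ (∑ i, d i) := by
      rw [← pow_add, Nat.sub_add_cancel hdn]
    rw [h1, h2, map_mul, map_mul, map_prod, map_pow, MvPolynomial.aeval_C]
    have h3 : (MvPolynomial.aeval q D) ^ (∑ i, d i) ≠ 0 := pow_ne_zero _ hq
    have h4 : ∏ i, MvPolynomial.aeval q (N i ^ d i) = ∏ i, (MvPolynomial.aeval q (N i)) ^ d i :=
      prod_congr rfl fun i _ => map_pow _ _ _
    rw [h4]
    field_simp

end Pool.Agent.KDT.H76
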